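import Pool.Agent.U234.RM.Bridge
import Pool.Agent.R187.WC.Fin
import Pool.Agent.TH214.RM.Fin
import Pool.Agent.H918R2.Quad.Final

/-! The function fields of smooth (weighted) hypersurfaces with locally regular equations have
regular models proper over the integers. -/

set_option autoImplicit false

open AlgebraicGeometry CategoryTheory MvPolynomial NumberField

namespace Pool.Agent.U234.RM

open Pool.Agent.H918R2.Quad Pool.Agent.W418

/-- The field has a regular integral model which is proper over the integers. -/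
def FieldModel (F : Type) [Field F] : Prop :=
  ∃ (X' : Scheme.{0}) (_ : IsIntegral X') (g : X' ⟶ Spec (CommRingCat.of ℤ)),
    IsProper g ∧
    (∀ x : X',
      (((Module.finrank (IsLocalRing.ResidueField (X'.presheaf.stalk x))
          (IsLocalRing.CotangentSpace (X'.presheaf.stalk x)) : ℕ∞)) : WithBot ℕ∞)
        = ringKrullDim (X'.presheaf.stalk x)) ∧
    Nonempty (X'.functionField ≃+* F)

theorem exists_basis {K F : Type} [Field K] [Field F] [Algebra K F] {n : ℕ}
    (h : Algebra.trdeg K F = n) : ∃ b : Fin n → F, IsTranscendenceBasis K b := by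
  obtain ⟨s, hs⟩ := exists_isTranscendenceBasis K F
  have h1 : Cardinal.mk s = n := by rw [← h]; exact hs.cardinalMk_eq_trdeg
  have h2 : Cardinal.mk s = Cardinal.mk (Fin n) := by rw [h1, Cardinal.mk_fin]
  obtain ⟨e⟩ := Cardinal.eq.1 h2
  exact ⟨fun i => (e.symm i : F), hs.comp_equiv e.symm⟩

theorem adjoin_zz {K F : Type} [Field K] [Field F] [Algebra K F] {n e : ℕ} (he : 1 ≤ e)
    (x : Option (Fin (n + 1)) → F) (hx0 : x (some 0) = 1)
    (hgen : IntermediateField.adjoin K (Set.range x) = ⊤) :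
    IntermediateField.adjoin K (Set.range (Pool.Agent.R187.WC.zz e x)) = ⊤ := by
  rw [eq_top_iff, ← hgen, IntermediateField.adjoin_le_iff]
  rintro _ ⟨o, rfl⟩
  apply IntermediateField.subset_adjoin
  cases o with
  | none => exact ⟨.inr (), rfl⟩
  | some j =>
    obtain ⟨e', rfl⟩ : ∃ e', e = e' + 1 := ⟨e - 1, by omega⟩
    refine ⟨.inl (Fin.cons j fun _ => 0), ?_⟩
    simp [Pool.Agent.R187.WC.zz, Fin.prod_univ_succ, hx0]

theorem model_of_weighted {K : Type} [Field K] [NumberField K] {n : ℕ} (e m : ℕ)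
    (he : 1 ≤ e) (P : MvPolynomial (Option (Fin (n + 1))) K)
    (hPd : P.IsWeightedHomogeneous (Pool.Agent.R187.WC.wt e) (m * e))
    (hc : coeff (Finsupp.single none m) P ≠ 0)
    (hsm : Pool.Agent.R187.WC.SmoothW P) (hloc : Pool.Agent.R187.WC.LocRegW (𝓞 K) e m P)
    {F : Type} [Field F] [Algebra K F] (x : Option (Fin (n + 1)) → F) (hx0 : x (some 0) = 1)
    (hrel : aeval x P = 0) (hgen : IntermediateField.adjoin K (Set.range x) = ⊤)
    (htr : Algebra.trdeg K F = n) : FieldModel F := by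
  obtain ⟨b, htb⟩ := exists_basis htr
  let _ : Algebra (𝓞 K) F := ((algebraMap K F).comp (algebraMap (𝓞 K) K)).toAlgebra
  have hst : IsScalarTower (𝓞 K) K F := IsScalarTower.of_algebraMap_eq fun _ => rfl
  have hOK : Function.Injective (algebraMap (𝓞 K) K) := IsFractionRing.injective (𝓞 K) K
  have hOF : Function.Injective (algebraMap (𝓞 K) F) := by
    rw [IsScalarTower.algebraMap_eq (𝓞 K) K F]
    exact (algebraMap K F).injective.comp hOK
  have hM : GoodModule (𝓞 K) (Pool.Agent.R187.WC.zz e x) :=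
    Pool.Agent.R187.WC.goodModule_of_locRegW (K := K) he P hPd hc hsm hloc x hx0 hrel hgen b htb
  have hone : Pool.Agent.R187.WC.zz e x (.inl fun _ => 0) = 1 := by
    simp [Pool.Agent.R187.WC.zz, hx0]
  exact model_of_hasModule hOF
    (hasModule_of_goodModule (K := K) _ _ hone (adjoin_zz he x hx0 hgen) hM)

theorem model_of_homogeneous {K : Type} [Field K] [NumberField K] {n : ℕ} (hn : 1 ≤ n)
    (G : MvPolynomial (Fin (n + 2)) K) (d : ℕ) (hd : 2 ≤ d) (hGd : G.IsHomogeneous d)
    (hsm : Pool.Agent.TH214.RM.Smooth G) (hloc : Pool.Agent.TH214.RM.LocReg (𝓞 K) G)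
    {F : Type} [Field F] [Algebra K F] (x : Fin (n + 2) → F) (hx0 : x 0 = 1)
    (hrel : aeval x G = 0) (hgen : IntermediateField.adjoin K (Set.range x) = ⊤)
    (htr : Algebra.trdeg K F = n) : FieldModel F := by
  have hirr := Pool.Agent.TH214.RM.irreducible_of_smooth hn G d (by omega) hGd hsm
  obtain ⟨b, htb⟩ := exists_basis htr
  let _ : Algebra (𝓞 K) F := ((algebraMap K F).comp (algebraMap (𝓞 K) K)).toAlgebra
  have hst : IsScalarTower (𝓞 K) K F := IsScalarTower.of_algebraMap_eq fun _ => rfl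
  have hOK : Function.Injective (algebraMap (𝓞 K) K) := IsFractionRing.injective (𝓞 K) K
  have hOF : Function.Injective (algebraMap (𝓞 K) F) := by
    rw [IsScalarTower.algebraMap_eq (𝓞 K) K F]
    exact (algebraMap K F).injective.comp hOK
  have hM : GoodModule (𝓞 K) x :=
    Pool.Agent.TH214.RM.goodModule_of_locReg (K := K) G hirr.ne_zero d hGd hsm hloc x hx0 hrel
      hgen b htb
  exact model_of_hasModule hOF (hasModule_of_goodModule (K := K) _ 0 hx0 hgen hM)

theorem exists_field_weighted {K : Type} [Field K] [NumberField K] {n : ℕ} (hn : 1 ≤ n) (e m : ℕ)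
    (he : 1 ≤ e) (hm : 1 ≤ m) (P : MvPolynomial (Option (Fin (n + 1))) K)
    (hPd : P.IsWeightedHomogeneous (Pool.Agent.R187.WC.wt e) (m * e))
    (hc : coeff (Finsupp.single none m) P ≠ 0) (hsm : Pool.Agent.R187.WC.SmoothW P) :
    ∃ (F : Type) (_ : Field F) (_ : Algebra K F) (x : Option (Fin (n + 1)) → F),
      x (some 0) = 1 ∧ aeval x P = 0 ∧ IntermediateField.adjoin K (Set.range x) = ⊤ ∧
      Algebra.trdeg K F = n := by
  have hirr := Pool.Agent.R187.WC.irreducible_of_smoothW hn e m he hm P hPd hc hsm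
  obtain ⟨F, _, _, x, b, hx0, hrel, hgen, htb⟩ :=
    Pool.Agent.R187.WC.exists_ffW e m he hm P hPd hc hirr
  refine ⟨F, _, _, x, hx0, hrel, hgen, ?_⟩
  rw [← htb.cardinalMk_eq_trdeg, Cardinal.mk_fin]

theorem exists_field_homogeneous {K : Type} [Field K] [NumberField K] {n : ℕ} (hn : 1 ≤ n)
    (G : MvPolynomial (Fin (n + 2)) K) (d : ℕ) (hd : 2 ≤ d) (hGd : G.IsHomogeneous d)
    (hsm : Pool.Agent.TH214.RM.Smooth G) :
    ∃ (F : Type) (_ : Field F) (_ : Algebra K F) (x : Fin (n + 2) → F),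
      x 0 = 1 ∧ aeval x G = 0 ∧ IntermediateField.adjoin K (Set.range x) = ⊤ ∧
      Algebra.trdeg K F = n := by
  have hirr := Pool.Agent.TH214.RM.irreducible_of_smooth hn G d (by omega) hGd hsm
  obtain ⟨F, _, _, x, b, hx0, hrel, hgen, htb⟩ := Pool.Agent.TH214.RM.exists_ff G hirr d hGd
    (Pool.Agent.TH214.RM.not_dvd_X G hirr.ne_zero d hd hGd)
  refine ⟨F, _, _, x, hx0, hrel, hgen, ?_⟩
  rw [← htb.cardinalMk_eq_trdeg, Cardinal.mk_fin]

end Pool.Agent.U234.RM
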