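import Pool.Agent.W418.Diag1
import Pool.Agent.H918R2.Quad.HasModule

/-! A good module over the coordinates of a generating tuple is a good module of the field. -/

set_option autoImplicit false

open scoped Pointwise

namespace Pool.Agent.U234.RM

open Pool.Agent.H918R2.Quad Pool.Agent.W418

theorem hasModule_of_goodModule {O K F : Type} [CommRing O] [IsDomain O] [Field K] [Algebra O K]
    [IsFractionRing O K] [Field F] [Algebra K F] [Algebra O F] [IsScalarTower O K F]
    {ι : Type} (z : ι → F) (i₀ : ι) (hz : z i₀ = 1)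
    (hgen : IntermediateField.adjoin K (Set.range z) = ⊤) (h : GoodModule O z) :
    HasModule O F := by
  obtain ⟨D, M, hD, hfg, hne, hle, hs, hreg⟩ := h
  refine ⟨M, hfg, hne, ?_, hreg⟩
  intro f hf hf0
  have hOK : Function.Injective (algebraMap O K) := IsFractionRing.injective O K
  have hOF : Function.Injective (algebraMap O F) := by
    rw [IsScalarTower.algebraMap_eq O K F]
    exact (algebraMap K F).injective.comp hOK
  set C : Subalgebra O F := chart O M f with hC
  let S : Subfield F := Subfield.closure (C : Set F)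
  have hCS : ∀ y ∈ C, y ∈ S := fun y hy => Subfield.subset_closure hy
  have hOS : ∀ a : O, algebraMap O F a ∈ S := fun a => hCS _ (C.algebraMap_mem a)
  have hKS : ∀ a : K, algebraMap K F a ∈ S := by
    intro a
    obtain ⟨p, q, hq, rfl⟩ := IsFractionRing.div_surjective (A := O) a
    rw [map_div₀, ← IsScalarTower.algebraMap_apply, ← IsScalarTower.algebraMap_apply]
    exact S.div_mem (hOS p) (hOS q)
  have hspan : ∀ g ∈ Submodule.span O (Set.range z ^ D), g / f ∈ S := by
    intro g hg
    obtain ⟨s, hs0, hsM⟩ := hs g hg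
    have h1 : (s • g) / f ∈ S := hCS _ (Algebra.subset_adjoin ⟨_, hsM, rfl⟩)
    have h2 : algebraMap O F s ≠ 0 := fun h => hs0 (hOF (by rw [h, map_zero]))
    have h3 : g / f = ((s • g) / f) / algebraMap O F s := by
      rw [Algebra.smul_def]
      field_simp
    rw [h3]
    exact S.div_mem h1 (hOS s)
  have hone : (1 : F) ∈ Set.range z := ⟨i₀, hz⟩
  have h1f : (1 : F) / f ∈ S := by
    apply hspan
    apply Submodule.subset_span
    have h1 : (1 : F) ^ D ∈ Set.range z ^ D := Set.pow_mem_pow hone
    rwa [one_pow] at h1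
  have hfS : f ∈ S := by
    have := S.inv_mem h1f
    rwa [one_div, inv_inv] at this
  have hzS : ∀ i, z i ∈ S := by
    intro i
    have h1 : z i / f ∈ S := by
      apply hspan
      apply Submodule.subset_span
      obtain ⟨D', rfl⟩ : ∃ D', D = D' + 1 := ⟨D - 1, by omega⟩
      rw [pow_succ]
      refine Set.mem_mul.2 ⟨1, ?_, z i, ⟨i, rfl⟩, one_mul _⟩
      have h1 : (1 : F) ^ D' ∈ Set.range z ^ D' := Set.pow_mem_pow hone
      rwa [one_pow] at h1
    have h2 : z i = z i / f * f := by field_simp
    rw [h2]
    exact S.mul_mem h1 hfS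
  let T : IntermediateField K F := S.toIntermediateField hKS
  have hT : T = ⊤ := by
    rw [eq_top_iff, ← hgen, IntermediateField.adjoin_le_iff]
    rintro _ ⟨i, rfl⟩
    exact hzS i
  intro y
  have hy : y ∈ S := by
    have : y ∈ T := by rw [hT]; trivial
    exact this
  obtain ⟨b, hb, c, hc, hbc⟩ := Subfield.mem_closure_iff.1 hy
  have hcl : Subring.closure (C : Set F) = C.toSubring := by
    apply le_antisymm
    · rw [Subring.closure_le]
      intro y hy
      exact hy
    · intro y hy
      exact Subring.subset_closure hy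
  rw [hcl] at hb hc
  by_cases hc0 : c = 0
  · refine ⟨0, C.zero_mem, 1, C.one_mem, one_ne_zero, ?_⟩
    rw [← hbc, hc0, div_zero, zero_div]
  · exact ⟨b, hb, c, hc, hc0, hbc.symm⟩

end Pool.Agent.U234.RM
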